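import Mathlib

/-!
# Jets of very well-covered 3-uniform clutters need not be very well-covered
-/

namespace Pool.Agent.Results.MP_4ee39a_co.JetsNotWellCovered

open Finset

variable {X : Type} [Fintype X] [DecidableEq X]

/-- `E` is the edge set of a clutter all of whose edges have `d` elements. -/
def IsUniformClutter (d : ℕ) (E : Set (Finset X)) : Prop :=
  (∀ e ∈ E, ∀ f ∈ E, e ⊆ f → e = f) ∧ ∀ e ∈ E, e.card = d

/-- Vertex covers. -/
def IsCover (E : Set (Finset X)) (W : Finset X) : Prop := ∀ e ∈ E, (e ∩ W).Nonempty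

/-- Minimal vertex covers. -/
def IsMinCover (E : Set (Finset X)) (W : Finset X) : Prop :=
  IsCover E W ∧ ∀ W', W' ⊂ W → ¬ IsCover E W'

/-- Every minimal vertex cover has exactly `|X| / d` elements. -/
def VeryWellCovered (d : ℕ) (E : Set (Finset X)) : Prop :=
  ∀ W, IsMinCover E W → d * W.card = Fintype.card X

/-- The clutter of `s`-jets. -/
def jets (s : ℕ) (E : Set (Finset X)) : Set (Finset (X × Fin (s + 1))) :=
  {f | ∃ e ∈ E, ∃ i : X → Fin (s + 1), ∑ x ∈ e, (i x : ℕ) ≤ s ∧ f = e.image fun x => (x, i x)}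

/-- The example: four triples on six points. -/
def E0 : Finset (Finset (Fin 6)) := {{0, 1, 2}, {1, 2, 3}, {0, 2, 4}, {0, 1, 5}}

lemma clutter : IsUniformClutter 3 (E0 : Set (Finset (Fin 6))) := by
  have h1 : ∀ e ∈ E0, ∀ f ∈ E0, e ⊆ f → e = f := by decide +kernel
  have h2 : ∀ e ∈ E0, e.card = 3 := by decide +kernel
  exact ⟨fun e he f hf => h1 e (by exact_mod_cast he) f (by exact_mod_cast hf),
    fun e he => h2 e (by exact_mod_cast he)⟩

lemma all_covers : ∀ W : Finset (Fin 6), (∀ e ∈ E0, (e ∩ W).Nonempty) →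
    (∀ v ∈ W, ¬ ∀ e ∈ E0, (e ∩ W.erase v).Nonempty) → W.card = 2 := by
  decide +kernel

lemma vwc : VeryWellCovered 3 (E0 : Set (Finset (Fin 6))) := by
  intro W hW
  have h1 : ∀ e ∈ E0, (e ∩ W).Nonempty := fun e he => hW.1 e (by exact_mod_cast he)
  have h2 : ∀ v ∈ W, ¬ ∀ e ∈ E0, (e ∩ W.erase v).Nonempty := by
    intro v hv hcov
    exact hW.2 _ (erase_ssubset hv) fun e he => hcov e (by exact_mod_cast he)
  rw [all_covers W h1 h2]
  rfl

/-- The minimal vertex cover with 3 elements. -/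
def W3 : Finset (Fin 6 × Fin 2) := {(0, 0), (1, 0), (2, 0)}

lemma cover_check : ∀ e ∈ E0, ∀ i : Fin 6 → Fin 2, ∑ x ∈ e, (i x : ℕ) ≤ 1 →
    ((e.image fun x => (x, i x)) ∩ W3).Nonempty := by
  decide +kernel

lemma isMin : IsMinCover (jets 1 (E0 : Set (Finset (Fin 6)))) W3 := by
  constructor
  · rintro f ⟨e, he, i, hi, rfl⟩
    exact cover_check e (by exact_mod_cast he) i hi
  · intro W' hW' hcov
    obtain ⟨hsub, hne⟩ := hW'
    obtain ⟨v, hv, hvW⟩ := not_subset.mp hne
    have key : ∀ w ∈ W3, ∃ e ∈ E0, ∃ i : Fin 6 → Fin 2, ∑ x ∈ e, (i x : ℕ) ≤ 1 ∧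
        ((e.image fun x => (x, i x)) ∩ W3) ⊆ {w} := by
      intro w hw
      simp only [W3, mem_insert, mem_singleton] at hw
      rcases hw with rfl | rfl | rfl
      · exact ⟨{0, 2, 4}, by decide, fun x => if x = 2 then 1 else 0, by decide, by decide⟩
      · exact ⟨{0, 1, 5}, by decide, fun x => if x = 0 then 1 else 0, by decide, by decide⟩
      · exact ⟨{1, 2, 3}, by decide, fun x => if x = 1 then 1 else 0, by decide, by decide⟩
    obtain ⟨e, he, i, hi, hsub2⟩ := key v hv
    obtain ⟨z, hz⟩ := hcov _ ⟨e, by exact_mod_cast he, i, hi, rfl⟩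
    rw [mem_inter] at hz
    have h1 := hsub2 (mem_inter.mpr ⟨hz.1, hsub hz.2⟩)
    rw [mem_singleton] at h1
    rw [h1] at hz
    exact hvW hz.2

/-- **Jets of very well-covered uniform clutters need not be very well-covered.** -/
theorem result : ¬ ∀ (X : Type) (_ : Fintype X) (_ : DecidableEq X) (d : ℕ) (E : Set (Finset X)),
    IsUniformClutter d E → VeryWellCovered d E → ∀ s : ℕ, VeryWellCovered d (jets s E) := by
  intro h
  have h1 := h (Fin 6) inferInstance inferInstance 3 _ clutter vwc 1 W3 isMin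
  have h2 : W3.card = 3 := by decide
  rw [h2] at h1
  simp at h1

end Pool.Agent.Results.MP_4ee39a_co.JetsNotWellCovered
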